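import Mathlib
import Pool.Agent.H74.E2AC

set_option autoImplicit false

namespace Pool.Agent.Results.MP_71c9ee_al.NotAC
open Pool.Agent.H74.E2AC MatrixGroups unitInterval Metric MvPolynomial

/-- One elementary Andrews-Curtis move on a `k`-tuple. -/
inductive ACStep {G : Type} [Group G] {k : ℕ} (U : Fin k → G) : (Fin k → G) → Prop
  | mulRight (i j : Fin k) (h : j ≠ i) : ACStep U (Function.update U i (U i * U j))
  | mulRightInv (i j : Fin k) (h : j ≠ i) : ACStep U (Function.update U i (U i * (U j)⁻¹))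
  | mulLeft (i j : Fin k) (h : j ≠ i) : ACStep U (Function.update U i (U j * U i))
  | mulLeftInv (i j : Fin k) (h : j ≠ i) : ACStep U (Function.update U i ((U j)⁻¹ * U i))
  | inv (i : Fin k) : ACStep U (Function.update U i (U i)⁻¹)
  | conj (i : Fin k) (w : G) : ACStep U (Function.update U i (w⁻¹ * U i * w))

/-- `V` is obtained from `U` by a finite sequence of elementary moves. -/
def ACEquiv {G : Type} [Group G] {k : ℕ} (U V : Fin k → G) : Prop :=
  Relation.ReflTransGen ACStep U V

section inv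
variable {G K X : Type} [Group G] [Group K] [TopologicalSpace K] [IsTopologicalGroup K]
  [TopologicalSpace X] {k : ℕ}

def Null (ρ : X → G →* K) (U : Fin k → G) : Prop :=
  ∃ f : C(X, {y : Fin k → K // y ≠ 1}), (∀ x i, (f x).1 i = ρ x (U i)) ∧ f.Nullhomotopic

omit [IsTopologicalGroup K] in
theorem null_upd (ρ : X → G →* K) {U : Fin k → G} (hU : Null ρ U) (i : Fin k) (g : G)
    (φ : (Fin k → K) → K) (hφ : Continuous φ)
    (h1 : ∀ y : Fin k → K, (∀ j, j ≠ i → y j = 1) → φ y = 1 → y i = 1)
    (h2 : ∀ x, φ (fun j => ρ x (U j)) = ρ x g) : Null ρ (Function.update U i g) := by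
  obtain ⟨f, hf, hn⟩ := hU
  let sg : C({y : Fin k → K // y ≠ 1}, {y : Fin k → K // y ≠ 1}) :=
    ⟨fun y => ⟨Function.update y.1 i (φ y.1), fun h => y.2 (by
      have h3 : ∀ j, j ≠ i → y.1 j = 1 := fun j hj => by
        simpa [Function.update_of_ne hj] using congrFun h j
      have h4 := h1 y.1 h3 (by simpa using congrFun h i)
      funext j
      by_cases hj : j = i
      · rw [hj]; exact h4
      · exact h3 j hj)⟩,
      Continuous.subtype_mk (continuous_subtype_val.update i (hφ.comp continuous_subtype_val)) _⟩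
  refine ⟨sg.comp f, fun x j => ?_, hn.comp_right sg⟩
  change Function.update (f x).1 i (φ (f x).1) j = _
  by_cases hj : j = i
  · subst hj
    rw [Function.update_self, Function.update_self, ← h2 x]
    congr 1
    funext j
    exact hf x j
  · rw [Function.update_of_ne hj, Function.update_of_ne hj, hf]

theorem null_step (ρ : X → G →* K)
    (hρ : ∀ w, ∃ H : C(I × X, K), (∀ x, H (0, x) = 1) ∧ ∀ x, H (1, x) = ρ x w)
    {U V : Fin k → G} (h : ACStep U V) (hU : Null ρ U) : Null ρ V := by
  cases h with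
  | mulRight i j hj =>
    exact null_upd ρ hU i _ (fun y => y i * y j) (by fun_prop)
      (fun y h1 h2 => by simpa [h1 j hj] using h2) (fun x => by simp)
  | mulRightInv i j hj =>
    exact null_upd ρ hU i _ (fun y => y i * (y j)⁻¹) (by fun_prop)
      (fun y h1 h2 => by simpa [h1 j hj] using h2) (fun x => by simp)
  | mulLeft i j hj =>
    exact null_upd ρ hU i _ (fun y => y j * y i) (by fun_prop)
      (fun y h1 h2 => by simpa [h1 j hj] using h2) (fun x => by simp)
  | mulLeftInv i j hj =>
    exact null_upd ρ hU i _ (fun y => (y j)⁻¹ * y i) (by fun_prop)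
      (fun y h1 h2 => by simpa [h1 j hj] using h2) (fun x => by simp)
  | inv i =>
    exact null_upd ρ hU i _ (fun y => (y i)⁻¹) (by fun_prop)
      (fun y _ h2 => by simpa using h2) (fun x => by simp)
  | conj i w =>
    obtain ⟨H, h0, h1⟩ := hρ w
    obtain ⟨f, hf, y, hy⟩ := hU
    have hc : Continuous fun q : I × X => (f q.2).1 :=
      continuous_subtype_val.comp (f.continuous.comp continuous_snd)
    let Hf : C(I × X, {y : Fin k → K // y ≠ 1}) :=
      ⟨fun q => ⟨Function.update (f q.2).1 i ((H q)⁻¹ * (f q.2).1 i * H q), fun h => (f q.2).2 (by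
        funext j
        by_cases hj : j = i
        · have := congrFun h i
          rw [Function.update_self, Pi.one_apply, mul_assoc, inv_mul_eq_one, right_eq_mul] at this
          rw [hj]; exact this
        · simpa [Function.update_of_ne hj] using congrFun h j)⟩,
        Continuous.subtype_mk (Continuous.update hc i
          ((H.continuous.inv.mul ((continuous_apply i).comp hc)).mul H.continuous)) _⟩
    let f' : C(X, {y : Fin k → K // y ≠ 1}) := ⟨fun x => Hf (1, x), by fun_prop⟩
    refine ⟨f', fun x j => ?_, y, ContinuousMap.Homotopic.trans (ContinuousMap.Homotopic.symm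
      ⟨⟨Hf, fun x => ?_, fun x => rfl⟩⟩) hy⟩
    · change Function.update (f x).1 i ((H (1, x))⁻¹ * (f x).1 i * H (1, x)) j = _
      by_cases hj : j = i
      · subst hj
        simp [h1, hf]
      · rw [Function.update_of_ne hj, Function.update_of_ne hj, hf]
    · apply Subtype.ext
      change Function.update (f x).1 i ((H (0, x))⁻¹ * (f x).1 i * H (0, x)) = _
      simp [h0]

end inv

abbrev P := MvPolynomial (Fin 6) ℤ

noncomputable def s : P :=
  30 * (∑ j, X j ^ 2) * ∏ j, ((1 + X j) * (2 + X j) * (1 + (1 + X j) ^ 2))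

abbrev A := Localization.Away s

noncomputable def x (j : Fin 6) : A := algebraMap P A (X j)

theorem unit_of_dvd {p : P} (h : p ∣ s) : IsUnit (algebraMap P A p) :=
  isUnit_of_dvd_unit (map_dvd _ h) (IsLocalization.Away.algebraMap_isUnit s)

theorem u30 : IsUnit (30 : A) := by
  have := unit_of_dvd (p := 30) (Dvd.dvd.mul_right (Dvd.intro _ rfl) _)
  rwa [map_ofNat] at this

theorem usq : IsUnit (∑ j, x j ^ 2) := by
  simpa [x] using unit_of_dvd (p := ∑ j, X j ^ 2) (Dvd.dvd.mul_right (Dvd.intro_left _ rfl) _)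

theorem good (j : Fin 6) : Good (x j) := by
  have := unit_of_dvd (p := (1 + X j) * (2 + X j) * (1 + (1 + X j) ^ 2))
    (Dvd.dvd.mul_left (Finset.dvd_prod_of_mem
      (fun j : Fin 6 => ((1 + X j) * (2 + X j) * (1 + (1 + X j) ^ 2) : P)) (Finset.mem_univ j)) _)
  simp only [map_mul, map_add, map_one, map_pow, map_ofNat, IsUnit.mul_iff] at this
  exact ⟨this.1.1, this.1.2, this.2⟩

theorem u2 : IsUnit (2 : A) := isUnit_of_dvd_unit ⟨15, by norm_num⟩ u30
theorem u3 : IsUnit (3 : A) := isUnit_of_dvd_unit ⟨10, by norm_num⟩ u30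
theorem u15 : IsUnit (15 : A) := isUnit_of_dvd_unit ⟨2, by norm_num⟩ u30

theorem fg : Group.FG (E2 A) := by
  classical
  have hs := IsLocalization.Away.algebraMap_isUnit (S := A) s
  refine E2_fg (insert u2.unit (insert hs.unit ((Finset.univ.image fun j => (good j).1.unit) ∪
    (Finset.univ.image fun j => (good j).2.1.unit)))) fun B hB => ?_
  have h2 := (hB u2.unit (by simp)).2
  have h2' : (↑u2.unit⁻¹ : A) ∈ B := by
    have h3 := B.mul_mem (natCast_mem B 2) h2
    convert h3 using 1
    have := u2.mul_val_inv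
    push_cast
    linear_combination -(↑u2.unit⁻¹ : A) * this
  have hx : ∀ j, x j ∈ B := fun j => by
    have h3 := (hB (good j).1.unit (by simp)).1
    have h4 := (hB (good j).2.1.unit (by simp)).1
    rw [IsUnit.unit_spec] at h3 h4
    have h5 := B.mul_mem h2' (B.sub_mem (B.sub_mem h4 h3) (natCast_mem B 3))
    convert h5 using 1
    have := u2.mul_val_inv
    push_cast
    linear_combination -x j * this
  have hp : ∀ p : P, algebraMap P A p ∈ B := fun p => by
    induction p using MvPolynomial.induction_on with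
    | C a => simp
    | add p q hp hq => rw [map_add]; exact B.add_mem hp hq
    | mul_X p j hp => rw [map_mul]; exact B.mul_mem hp (hx j)
  have hs' : (↑hs.unit⁻¹ : A) ∈ B := by
    have h3 := B.mul_mem (hp s) (hB hs.unit (by simp)).2
    convert h3 using 1
    have := hs.mul_val_inv
    linear_combination -(↑hs.unit⁻¹ : A) * this
  intro a
  obtain ⟨n, p, h⟩ := IsLocalization.Away.surj s a
  have h4 := B.mul_mem (hp p) (B.pow_mem hs' n)
  convert h4 using 1
  rw [← h, mul_assoc, ← mul_pow, hs.mul_val_inv, one_pow, mul_one]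

abbrev E := EuclideanSpace ℝ (Fin 6)
abbrev S := sphere (0 : E) 1

noncomputable def ev0 (z : S) : P →+* ℝ := (aeval (fun j => z.1 j / 2) : P →ₐ[ℤ] ℝ).toRingHom

theorem ev0_s (z : S) : ev0 z s ≠ 0 := by
  have hz : ‖z.1‖ = 1 := by simp
  have h1 : ∑ j, z.1 j ^ 2 = 1 := by rw [← EuclideanSpace.real_norm_sq_eq, hz, one_pow]
  have h2 : ∀ j, -1 ≤ z.1 j := fun j => by
    have := PiLp.norm_apply_le z.1 j
    rw [hz, Real.norm_eq_abs] at this
    exact (abs_le.1 this).1
  have h3 : ∑ j, (z.1 j / 2) ^ 2 = 1 / 4 := by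
    simp only [div_pow, ← Finset.sum_div, h1]; norm_num
  simp only [ev0, s, AlgHom.toRingHom_eq_coe, RingHom.coe_coe, map_mul, map_sum, map_prod, map_pow,
    map_add, map_one, map_ofNat, aeval_X, h3]
  refine mul_ne_zero (by norm_num) (Finset.prod_ne_zero_iff.2 fun j _ => ?_)
  have := h2 j
  have h4 : 0 < 1 + z.1 j / 2 := by linarith
  have h5 : 0 < 2 + z.1 j / 2 := by linarith
  positivity

noncomputable def ev (z : S) : A →+* ℝ :=
  IsLocalization.Away.lift s (g := ev0 z) (isUnit_iff_ne_zero.2 (ev0_s z))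

theorem ev_alg (z : S) (p : P) : ev z (algebraMap P A p) = ev0 z p :=
  IsLocalization.Away.lift_eq _ _ _

theorem ev_x (z : S) (j : Fin 6) : ev z (x j) = z.1 j / 2 := by
  rw [x, ev_alg]; simp [ev0]

theorem ev0_cont (p : P) : Continuous fun z => ev0 z p := by
  induction p using MvPolynomial.induction_on with
  | C a => simpa [ev0] using continuous_const
  | add p q hp hq => simp only [map_add]; exact hp.add hq
  | mul_X p j hp =>
    simp only [map_mul]
    refine hp.mul ?_
    simp only [ev0, AlgHom.toRingHom_eq_coe, RingHom.coe_coe, aeval_X]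
    fun_prop

theorem ev_cont (a : A) : Continuous fun z => ev z a := by
  obtain ⟨n, p, h⟩ := IsLocalization.Away.surj s a
  have : ∀ z, ev z a = ev0 z p / ev0 z s ^ n := fun z => by
    rw [eq_div_iff (pow_ne_zero n (ev0_s z)), ← ev_alg, ← ev_alg, ← h, map_mul, map_pow]
  simp only [this]
  exact (ev0_cont p).div ((ev0_cont s).pow n) fun z => pow_ne_zero n (ev0_s z)

noncomputable def ρ (z : S) : E2 A →* SL(2, ℝ) :=
  (Matrix.SpecialLinearGroup.map (ev z)).comp (E2 A).subtype

theorem ρ_ap (z : S) (g : E2 A) (i j : Fin 2) : ρ z g i j = ev z (g.1 i j) := rfl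

noncomputable def U0 : Fin 2 → E2 A := ![⟨lo 1, lo_mem 1⟩, 1]
noncomputable def U1 : Fin 2 → E2 A :=
  ![⟨ch (x 0) (x 1) (good 2).1.unit, ch_mem _ _ _⟩, ⟨ch (x 3) (x 4) (good 5).1.unit, ch_mem _ _ _⟩]

theorem null0 : Null ρ U0 := by
  refine ⟨ContinuousMap.const _ ⟨![lo 1, 1], fun h => ?_⟩, fun z i => ?_,
    ContinuousMap.nullhomotopic_of_constant _⟩
  · have := congrArg (fun g : SL(2, ℝ) => g 1 0) (congrFun h 0)
    simp [lo10] at this
  · fin_cases i
    · apply sl_ext <;> simp [ρ_ap, U0, lo]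
    · simp [U0]

theorem one_of (g : SL(2, ℝ)) (h1 : g 0 1 = 0) (h2 : g 1 0 = 0) (h3 : g 1 1 = 1) : g = 1 := by
  have := det2 g
  rw [h1, h2, h3] at this
  apply sl_ext <;> simp [h1, h2, h3]
  linarith

theorem not_null1 : ¬ Null ρ U1 := by
  rintro ⟨f, hf, hn⟩
  let ψ : C({y : Fin 2 → SL(2, ℝ) // y ≠ 1}, {v : E // v ≠ 0}) :=
    ⟨fun y => ⟨!₂[2 * y.1 0 0 1, 2 * y.1 0 1 0, 2 * (y.1 0 1 1 - 1), 2 * y.1 1 0 1, 2 * y.1 1 1 0,
      2 * (y.1 1 1 1 - 1)], fun h => y.2 (by
        have h' := fun j => congrArg (fun v : E => v j) h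
        have h0 := h' 0; have h1 := h' 1; have h2 := h' 2
        have h3 := h' 3; have h4 := h' 4; have h5 := h' 5
        simp at h0 h1 h2 h3 h4 h5
        funext i
        fin_cases i
        · exact one_of _ h0 h1 (sub_eq_zero.1 h2)
        · exact one_of _ h3 h4 (sub_eq_zero.1 h5))⟩, by
      refine Continuous.subtype_mk ((PiLp.continuous_toLp 2 _).comp (continuous_pi fun j => ?_)) _
      have hc : ∀ (i a b : Fin 2), Continuous
          fun y : {y : Fin 2 → SL(2, ℝ) // y ≠ 1} => (y.1 i).1 a b := fun i a b =>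
        (continuous_apply b).comp ((continuous_apply a).comp (continuous_subtype_val.comp
          ((continuous_apply i).comp continuous_subtype_val)))
      fin_cases j
      exacts [(hc 0 0 1).const_mul 2, (hc 0 1 0).const_mul 2,
        ((hc 0 1 1).sub continuous_const).const_mul 2, (hc 1 0 1).const_mul 2,
        (hc 1 1 0).const_mul 2, ((hc 1 1 1).sub continuous_const).const_mul 2]⟩
  refine sphere_not_null ⟨EuclideanSpace.single 0 1, by simp⟩ (ψ.comp f) (fun z => ?_)
    (hn.comp_right ψ)
  ext j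
  fin_cases j <;> simp [ψ, hf, ρ_ap, U1, ch01, ch10, ch11, ev_x] <;> ring

theorem result : ∃ (G : Type) (_ : Group G), Group.FG G ∧ ∃ (k : ℕ) (U V : Fin k → G), 2 ≤ k ∧
    Subgroup.normalClosure (Set.range U) = ⊤ ∧ Subgroup.normalClosure (Set.range V) = ⊤ ∧
    ACEquiv (fun i => Abelianization.of (U i)) (fun i => Abelianization.of (V i)) ∧
    ¬ ACEquiv U V := by
  refine ⟨E2 A, inferInstance, fg, 2, U0, U1, le_rfl, ?_, ?_, ?_, fun h => not_null1 ?_⟩
  · apply eq_top_of
    exact up_one_lev (nrm_map _) u2 u15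
      (Subgroup.mem_map.2 ⟨U0 0, Subgroup.subset_normalClosure ⟨0, rfl⟩, rfl⟩)
  · apply eq_top_of
    have h1 := ch_lev (nrm_map (Subgroup.normalClosure (Set.range U1))) (good 2).1.unit_spec
      (good 0) (good 1) (good 2)
      (Subgroup.mem_map.2 ⟨U1 0, Subgroup.subset_normalClosure ⟨0, rfl⟩, rfl⟩)
    have h2 := ch_lev (nrm_map (Subgroup.normalClosure (Set.range U1))) (good 5).1.unit_spec
      (good 3) (good 4) (good 5)
      (Subgroup.mem_map.2 ⟨U1 1, Subgroup.subset_normalClosure ⟨1, rfl⟩, rfl⟩)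
    rw [← mul_one (1 : A), ← Ideal.unit_mul_mem_iff_mem _ usq, mul_one, mul_one]
    refine Ideal.sum_mem _ fun j _ => Ideal.pow_mem_of_mem _ ?_ 2 two_pos
    fin_cases j
    exacts [h1.1, h1.2.1, h1.2.2, h2.1, h2.2.1, h2.2.2]
  · have : ∀ g : E2 A, Abelianization.of g = 1 := fun g => by
      rw [← MonoidHom.mem_ker, Abelianization.ker_of, perfect u2 u3]; trivial
    simp only [this]
    exact Relation.ReflTransGen.refl
  · generalize U1 = V at h
    induction h with
    | refl => exact null0
    | tail _ h2 ih => exact null_step ρ (fun w => path ev ev_cont w.1 w.2) h2 ih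

end Pool.Agent.Results.MP_71c9ee_al.NotAC
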